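import Mathlib
import Pool.Agent.R859.QS.Defs
import Pool.Agent.R784.SP.SchurDefs
import Pool.Agent.R784.SP.Main

/-!
MP_8fe44f_co, Q1 (positive answer): every symmetric set of `n - 1` permutations in `S_n` without
monotone elements is Schur-positive; its quasisymmetric function is a single Schur function.
Paper proof: helper859.
-/

set_option autoImplicit false

namespace Pool.Agent.Results.MP_8fe44f_co.SymmetricSets

open Pool.Agent.R859.QS Pool.Agent.R784.SP

theorem result (n : ℕ) (hn : 2 ≤ n) (S : Finset (Equiv.Perm (Fin n))) (hS : IsSymm (QF S.val))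
    (hcard : S.card = n - 1) (h1 : (1 : Equiv.Perm (Fin n)) ∉ S)
    (h2 : (Fin.revPerm : Equiv.Perm (Fin n)) ∉ S) :
    SchurPositive n (QF S.val) ∧ ∃ μ : YoungDiagram, QF S.val = schur μ ∧
      (μ.rowLens = [n - 1, 1] ∨ μ.rowLens = 2 :: List.replicate (n - 2) 1 ∨
        n = 6 ∧ (μ.rowLens = [3, 3] ∨ μ.rowLens = [2, 2, 2])) :=
  Pool.Agent.R784.SP.main n hn S hS hcard h1 h2

end Pool.Agent.Results.MP_8fe44f_co.SymmetricSets
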